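import Mathlib

/-! The polynomial identities behind the class of order two. -/

set_option autoImplicit false

namespace Pool.Agent.Lib.MP_08d8ea_nt

theorem cert {R : Type} [CommRing R] (x y t : R) (h1 : t ^ 2 = x * y)
    (h2 : t * x = 8 * t - y ^ 6) (h3 : x ^ 2 = 8 * x - t * y ^ 5) (h : (199 : R) = 0) :
    ∃ u r s : R,
      (198 + 166 * y + 82 * y ^ 2 + 152 * y ^ 3 + (22 + y) * t) * u
        = (72 + 88 * y + 175 * y ^ 2 + 32 * y ^ 3 + 39 * t + x) ^ 2 ∧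
      r * (198 + 166 * y + 82 * y ^ 2 + 152 * y ^ 3 + (22 + y) * t) + s * u = 1 := by
  refine ⟨(((189)*y^0 + (195)*y^1 + (198)*y^2 + (189)*y^3 + (198)*y^4) + ((21)*y^0 + (84)*y^1)*t + ((47)*y^0)*x),
    (((177)*y^0 + (153)*y^1 + (123)*y^2 + (9)*y^3 + (173)*y^4 + (123)*y^5 + (66)*y^6) + ((59)*y^0 + (104)*y^2 + (87)*y^3 + (172)*y^4)*t + ((6)*y^0 + (104)*y^1 + (44)*y^2 + (23)*y^3)*x),
    (((22)*y^0 + (148)*y^1 + (37)*y^2 + (24)*y^3 + (79)*y^4 + (160)*y^5 + (176)*y^6) + ((25)*y^0)*t + ((57)*y^0 + (65)*y^1)*x), ?_, ?_⟩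
  · linear_combination ((-1059)*y^0 + (1869)*y^1 + (84)*y^2) * h1 + ((956)*y^0 + (47)*y^1) * h2 + ((-1)*y^0) * h3 + (((162)*y^0 + (288)*y^1 + (272)*y^2 + (400)*y^3 + (403)*y^4 + (338)*y^5 + (216)*y^6 + (151)*y^7) + ((52)*y^0 + (91)*y^1 + (33)*y^2 + (60)*y^3 + (87)*y^4 + (1)*y^5)*t + ((46)*y^0 + (33)*y^1 + (27)*y^2 + (36)*y^3)*x) * h
  · linear_combination ((1823)*y^0 + (2159)*y^1 + (2288)*y^2 + (2018)*y^3 + (3871)*y^4 + (172)*y^5) * h1 + ((2504)*y^0 + (8447)*y^1 + (6532)*y^2 + (550)*y^3 + (23)*y^4) * h2 + ((2679)*y^0 + (3055)*y^1) * h3 + (((197)*y^0 + (462)*y^1 + (525)*y^2 + (537)*y^3 + (645)*y^4 + (800)*y^5 + (696)*y^6 + (626)*y^7 + (494)*y^8 + (374)*y^9 + (175)*y^10) + ((205)*y^0 + (456)*y^1 + (496)*y^2 + (284)*y^3 + (350)*y^4 + (310)*y^5 + (216)*y^6 + (206)*y^7)*t + ((173)*y^0 + (393)*y^1 + (273)*y^2 + (243)*y^3 + (264)*y^4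 + (165)*y^5 + (60)*y^6)*x) * h

end Pool.Agent.Lib.MP_08d8ea_nt
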