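import Mathlib

/-! Degree-zero divisor classes of a function field over a finite field. -/

set_option autoImplicit false

namespace Pool.Agent.Lib.MP_08d8ea_nt

variable (F K : Type) [Field F] [Field K] [Algebra F K]

/-- The places of `K / F`: normalised discrete valuations of `K` that are trivial on `F`. -/
def Place : Type :=
  {v : Valuation K (WithZero (Multiplicative ℤ)) // Function.Surjective v ∧ v.IsTrivialOn F}

/-- The degree of a place: its residue field has `|F| ^ deg` elements. -/
noncomputable def deg (P : Place F K) : ℕ :=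
  Nat.log (Nat.card F) (Nat.card (IsLocalRing.ResidueField P.1.valuationSubring))

/-- The divisors of degree zero. -/
noncomputable def Div0 : AddSubgroup (Place F K →₀ ℤ) :=
  (Finsupp.linearCombination ℤ (fun P => (deg F K P : ℤ))).toAddMonoidHom.ker

/-- The principal divisors. -/
def Prin : AddSubgroup (Place F K →₀ ℤ) where
  carrier := {D | ∃ f : K, f ≠ 0 ∧ ∀ P : Place F K, P.1 f = WithZero.exp (-D P)}
  zero_mem' := ⟨1, one_ne_zero, fun P => by simp⟩
  add_mem' := by
    rintro D E ⟨f, hf0, hf⟩ ⟨g, hg0, hg⟩
    exact ⟨f * g, mul_ne_zero hf0 hg0, fun P => by simp [hf P, hg P, WithZero.exp_add, mul_comm]⟩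
  neg_mem' := by
    rintro D ⟨f, hf0, hf⟩
    exact ⟨f⁻¹, inv_ne_zero hf0, fun P => by simp [hf P]⟩

/-- The group of degree-zero divisor classes. -/
abbrev Pic0 : Type := Div0 F K ⧸ (Prin F K).addSubgroupOf (Div0 F K)

end Pool.Agent.Lib.MP_08d8ea_nt
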