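import Mathlib
import Pool.Agent.Lib.MP_08d8ea_nt.Defs

/-! The place at infinity of a Galois cover of the line that is totally ramified there. -/

set_option autoImplicit false
set_option linter.unusedSectionVars false

open Polynomial WithZero

namespace Pool.Agent.Lib.MP_08d8ea_nt

theorem eq_exp_of_gen {K : Type} [Field K] (v : Valuation K ℤᵐ⁰) (hv : Function.Surjective v)
    (τ : K) (h1 : 1 < v τ) (h : ∀ z, z ≠ 0 → ∃ e : ℤ, v z = v τ ^ e) : v τ = exp 1 := by
  have h0 : v τ ≠ 0 := ne_zero_of_lt h1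
  obtain ⟨z, hz⟩ := hv (exp 1)
  have hz0 : z ≠ 0 := by
    rintro rfl
    rw [map_zero] at hz
    exact exp_ne_zero hz.symm
  obtain ⟨e, he⟩ := h z hz0
  obtain ⟨d, hd⟩ : ∃ d : ℤ, v τ = exp d := ⟨log (v τ), (exp_log h0).symm⟩
  rw [hd] at h1 ⊢
  rw [hz, hd, ← exp_zsmul, exp_inj, smul_eq_mul] at he
  rw [← exp_zero, exp_lt_exp] at h1
  rw [Int.eq_one_of_mul_eq_one_left h1.le he.symm]

theorem eq_of_isEquiv {K : Type} [Field K] (v w : Valuation K ℤᵐ⁰) (hv : Function.Surjective v)
    (hw : Function.Surjective w) (h : v.IsEquiv w) : v = w := by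
  obtain ⟨τ, hτ⟩ := hv (exp 1)
  have hτ0 : τ ≠ 0 := by
    rintro rfl
    rw [map_zero] at hτ
    exact exp_ne_zero hτ.symm
  have key : ∀ z, z ≠ 0 → v z = v τ ^ log (v z) ∧ w z = w τ ^ log (v z) := by
    intro z hz
    have h1 : v z = v τ ^ log (v z) := by
      rw [hτ, ← exp_zsmul, smul_eq_mul, mul_one, exp_log ((Valuation.ne_zero_iff v).mpr hz)]
    refine ⟨h1, ?_⟩
    rw [← map_zpow₀] at h1 ⊢
    exact (h.eq_iff).mp h1
  have h2 : 1 < w τ := by
    rw [← h.one_lt_iff_one_lt, hτ, ← exp_zero, exp_lt_exp]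
    norm_num
  have h3 := eq_exp_of_gen w hw τ h2 fun z hz => ⟨_, (key z hz).2⟩
  ext z
  by_cases hz : z = 0
  · simp [hz]
  · rw [(key z hz).1, (key z hz).2, hτ, h3]

variable (F K : Type) [Field F] [Field K] [Algebra F K] [Algebra F[X] K] [Algebra (RatFunc F) K]
  [IsScalarTower F[X] (RatFunc F) K] [IsScalarTower F F[X] K]

/-- The image of the variable. -/
noncomputable def xx : K := algebraMap F[X] K X

/-- Total ramification at infinity, in a form uniform in the valuation. -/
structure TotRam (τ : K) (μ : K → ℤ) (n : ℕ) : Prop where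
  pos : 0 < n
  rank : Module.finrank (RatFunc F) K = n
  val : ∀ (Γ : Type) [LinearOrderedCommGroupWithZero Γ] (w : Valuation K Γ) [w.IsTrivialOn F],
    1 < w (xx F K) → w τ ^ n = w (xx F K) ∧ (∀ z, z ≠ 0 → w z = w τ ^ μ z) ∧
      ∀ z, w z ≤ 1 → ∃ c : F, w (z - algebraMap F K c) < 1

variable {F K}

theorem aeval_xx (q : F[X]) : aeval (xx F K) q = algebraMap F[X] K q := by
  rw [xx, ← IsScalarTower.coe_toAlgHom' F F[X] K, aeval_algHom_apply, aeval_X_left_apply]

theorem xx_transcendental : Transcendental F (xx F K) := by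
  rw [transcendental_iff]
  intro q hq
  rw [aeval_xx] at hq
  exact FunctionField.algebraMap_injective F K (by rw [hq, map_zero])

omit [Algebra F K] [IsScalarTower F F[X] K] in
theorem xx_eq : xx F K = algebraMap (RatFunc F) K RatFunc.X := by
  rw [xx, IsScalarTower.algebraMap_apply F[X] (RatFunc F) K, RatFunc.algebraMap_X]

theorem algebraMap_C (c : F) : algebraMap (RatFunc F) K (RatFunc.C c) = algebraMap F K c := by
  rw [← RatFunc.algebraMap_C, ← IsScalarTower.algebraMap_apply, IsScalarTower.algebraMap_apply F F[X] K]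
  rfl

theorem exists_val : ∃ V : ValuationSubring K, V.valuation.IsTrivialOn F ∧
    1 < V.valuation (xx F K) := by
  have h1 : xx F K ∉ (integralClosure (Subring.closure (Set.range (algebraMap F K))) K).toSubring := by
    intro h
    have h2 : IsIntegral (Subring.closure (Set.range (algebraMap F K))) (xx F K) := h
    rw [← RingHom.coe_range, Subring.closure_eq] at h2
    refine xx_transcendental (F := F) (K := K) (IsIntegral.isAlgebraic ?_)
    obtain ⟨q, hq, hq2⟩ := h2
    obtain ⟨q', hq', -, hm⟩ := lifts_and_degree_eq_and_monic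
      (f := (algebraMap F K).rangeRestrict) (p := q)
      (by rw [lifts_iff_coeff_lifts]; intro k; exact (algebraMap F K).rangeRestrict_surjective _) hq
    refine ⟨q', hm, ?_⟩
    rw [← hq', eval₂_map] at hq2
    exact hq2
  rw [← iInf_valuationSubring_superset, Subring.mem_iInf] at h1
  push Not at h1
  obtain ⟨⟨V, hV⟩, hx⟩ := h1
  refine ⟨V, Valuation.IsTrivialOn.of_le_one _ fun c => ?_, ?_⟩
  · exact (V.valuation_le_one_iff _).mpr (hV ⟨c, rfl⟩)
  · exact lt_of_not_ge fun h => hx ((V.valuation_le_one_iff _).mp h)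

theorem val_ratFunc {Γ : Type} [LinearOrderedCommGroupWithZero Γ] (w : Valuation K Γ)
    [w.IsTrivialOn F] (hw : 1 < w (xx F K)) {r : RatFunc F} (hr : r ≠ 0) :
    w (algebraMap (RatFunc F) K r) = w (xx F K) ^ r.intDegree := by
  have : (w.comap (algebraMap (RatFunc F) K)).IsTrivialOn F := ⟨fun a ha => by
    rw [Valuation.comap_apply, RatFunc.algebraMap_eq_C, algebraMap_C]
    exact Valuation.IsTrivialOn.eq_one a ha⟩
  have h := RatFunc.valuation_eq_valuation_X_zpow_intDegree_of_one_lt_valuation_X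
    (v := w.comap (algebraMap (RatFunc F) K)) (f := r) (by rwa [Valuation.comap_apply, ← xx_eq]) hr
  rwa [Valuation.comap_apply, Valuation.comap_apply, ← xx_eq] at h

namespace TotRam

variable {τ : K} {μ : K → ℤ} {n : ℕ}

theorem one_lt (h : TotRam F K τ μ n) {Γ : Type} [LinearOrderedCommGroupWithZero Γ]
    (w : Valuation K Γ) [w.IsTrivialOn F] (hw : 1 < w (xx F K)) : 1 < w τ := by
  rw [← (h.val Γ w hw).1] at hw
  exact (one_lt_pow_iff h.pos.ne').mp hw

theorem mu_eq (h : TotRam F K τ μ n) {Γ : Type} [LinearOrderedCommGroupWithZero Γ]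
    (w : Valuation K Γ) [w.IsTrivialOn F] (hw : 1 < w (xx F K)) {z : K} (hz : z ≠ 0) {e : ℤ}
    (he : w z = w τ ^ e) : μ z = e := by
  rw [(h.val Γ w hw).2.1 z hz] at he
  exact (zpow_right_strictMono₀ (h.one_lt w hw)).injective he

/-- The valuation at infinity. -/
theorem exists_vinf (h : TotRam F K τ μ n) :
    ∃ v : Valuation K ℤᵐ⁰, Function.Surjective v ∧ v.IsTrivialOn F ∧ 1 < v (xx F K) ∧
      ∀ z, z ≠ 0 → v z = exp (μ z) := by
  classical
  obtain ⟨V, hV1, hV2⟩ := exists_val (F := F) (K := K)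
  set w := V.valuation with hw
  have h1 := h.one_lt w hV2
  have hτ0 : w τ ≠ 0 := ne_zero_of_lt h1
  have h2 := (h.val _ w hV2).2.1
  have hmul : ∀ a b, a ≠ 0 → b ≠ 0 → μ (a * b) = μ a + μ b := fun a b ha hb =>
    h.mu_eq w hV2 (mul_ne_zero ha hb) (by rw [map_mul, h2 a ha, h2 b hb, zpow_add₀ hτ0])
  have hle : ∀ a b, a ≠ 0 → b ≠ 0 → w a ≤ w b → μ a ≤ μ b := fun a b ha hb hab => by
    rw [h2 a ha, h2 b hb] at hab
    exact (zpow_right_strictMono₀ h1).le_iff_le.mp hab
  let v : Valuation K ℤᵐ⁰ :=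
    { toFun := fun z => if z = 0 then 0 else exp (μ z)
      map_zero' := by simp
      map_one' := by
        rw [if_neg one_ne_zero, h.mu_eq w hV2 one_ne_zero (e := 0) (by simp), exp_zero]
      map_mul' := fun a b => by
        by_cases ha : a = 0
        · simp [ha]
        by_cases hb : b = 0
        · simp [hb]
        rw [if_neg (mul_ne_zero ha hb), if_neg ha, if_neg hb, hmul a b ha hb, exp_add]
      map_add_le_max' := fun a b => by
        by_cases ha : a = 0
        · simp [ha]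
        by_cases hb : b = 0
        · simp [hb]
        by_cases hab : a + b = 0
        · simp [hab]
        simp only [if_neg ha, if_neg hb, if_neg hab, le_max_iff, exp_le_exp]
        rcases le_max_iff.mp (w.map_add a b) with h3 | h3
        · exact Or.inl (hle _ _ hab ha h3)
        · exact Or.inr (hle _ _ hab hb h3) }
  have hv : ∀ z, z ≠ 0 → v z = exp (μ z) := fun z hz => if_neg hz
  have hτ : τ ≠ 0 := (Valuation.ne_zero_iff w).mp hτ0
  have hvτ : v τ = exp 1 := by rw [hv τ hτ, h.mu_eq w hV2 hτ (e := 1) (by simp)]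
  have hx : xx F K ≠ 0 := (Valuation.ne_zero_iff w).mp (ne_zero_of_lt hV2)
  refine ⟨v, fun γ => ?_, ⟨fun a ha => ?_⟩, ?_, hv⟩
  · by_cases hγ : γ = 0
    · exact ⟨0, by rw [hγ, map_zero]⟩
    · exact ⟨τ ^ log γ, by rw [map_zpow₀, hvτ, ← exp_zsmul, smul_eq_mul, mul_one, exp_log hγ]⟩
  · have ha' : algebraMap F K a ≠ 0 := (_root_.map_ne_zero _).mpr ha
    rw [hv _ ha', h.mu_eq w hV2 ha' (e := 0) (by rw [hV1.eq_one a ha, zpow_zero]), exp_zero]
  · rw [hv _ hx, h.mu_eq w hV2 hx (e := n) (by rw [zpow_natCast, (h.val _ w hV2).1]),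
      ← exp_zero, exp_lt_exp]
    exact_mod_cast h.pos

/-- Every place with a pole of `x` has the values `exp (μ z)`. -/
theorem place_val (h : TotRam F K τ μ n) (P : Place F K) (hP : 1 < P.1 (xx F K)) {z : K}
    (hz : z ≠ 0) : P.1 z = exp (μ z) := by
  have := P.2.2
  have h2 := (h.val _ P.1 hP).2.1
  have h3 := eq_exp_of_gen P.1 P.2.1 τ (h.one_lt P.1 hP) fun z hz => ⟨_, h2 z hz⟩
  rw [h2 z hz, h3, ← exp_zsmul, smul_eq_mul, mul_one]

theorem mu_norm [FiniteDimensional (RatFunc F) K] [IsGalois (RatFunc F) K]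
    (h : TotRam F K τ μ n) {z : K} (hz : z ≠ 0) :
    μ z = (Algebra.norm (RatFunc F) z).intDegree := by
  obtain ⟨V, hV1, hV2⟩ := exists_val (F := F) (K := K)
  set w := V.valuation with hw
  have h1 := h.one_lt w hV2
  have hσ : ∀ σ : K ≃ₐ[RatFunc F] K, w (σ z) = w τ ^ μ z := by
    intro σ
    have hx : σ (xx F K) = xx F K := by rw [xx_eq, AlgEquiv.commutes]
    have : (w.comap (σ : K →+* K)).IsTrivialOn F := ⟨fun a ha => by
      rw [Valuation.comap_apply, ← algebraMap_C, RingHom.coe_coe, AlgEquiv.commutes, algebraMap_C]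
      exact hV1.eq_one a ha⟩
    have h3 := h.val _ (w.comap (σ : K →+* K))
      (by rwa [Valuation.comap_apply, RingHom.coe_coe, hx])
    simp only [Valuation.comap_apply, RingHom.coe_coe, hx] at h3
    have h4 : w (σ τ) = w τ := by
      rw [← (h.val _ w hV2).1] at h3
      exact (pow_left_inj₀ zero_le zero_le h.pos.ne').mp h3.1
    rw [h3.2.1 z hz, h4]
  have h5 := congrArg w (Algebra.norm_eq_prod_automorphisms (RatFunc F) z)
  rw [map_prod, Finset.prod_congr rfl fun σ _ => hσ σ, Finset.prod_const, Finset.card_univ,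
    ← Nat.card_eq_fintype_card, IsGalois.card_aut_eq_finrank, h.rank,
    val_ratFunc w hV2 (Algebra.norm_ne_zero_iff.mpr hz), ← (h.val _ w hV2).1, ← zpow_natCast,
    ← zpow_natCast, ← zpow_mul, ← zpow_mul, mul_comm] at h5
  have h6 := (zpow_right_strictMono₀ h1).injective h5
  have h7 : (n : ℤ) ≠ 0 := by exact_mod_cast h.pos.ne'
  exact (mul_right_cancel₀ h7 h6).symm

theorem deg_infty [Finite F] (h : TotRam F K τ μ n) (P : Place F K) (hP : 1 < P.1 (xx F K)) :
    deg F K P = 1 := by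
  have := P.2.2
  let φ : F →+* P.1.valuationSubring :=
    (algebraMap F K).codRestrict P.1.valuationSubring fun c =>
      Valuation.IsTrivialOn.valuation_algebraMap_le_one P.1 c
  have h1 : Function.Bijective ((IsLocalRing.residue P.1.valuationSubring).comp φ) := by
    refine ⟨RingHom.injective _, fun s => ?_⟩
    obtain ⟨z, rfl⟩ := IsLocalRing.residue_surjective s
    obtain ⟨c, hc⟩ := (h.val _ P.1 hP).2.2 z z.2
    refine ⟨c, ?_⟩
    rw [RingHom.comp_apply, eq_comm, ← sub_eq_zero, ← map_sub, IsLocalRing.residue_eq_zero_iff,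
      Valuation.mem_maximalIdeal_iff]
    exact hc
  rw [deg, ← Nat.card_eq_of_bijective _ h1]
  simpa using Nat.log_pow (Finite.one_lt_card (α := F)) 1

end TotRam

end Pool.Agent.Lib.MP_08d8ea_nt
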