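import Mathlib
import Pool.Agent.Lib.MP_08d8ea_nt.Infty

/-! Finiteness of the degree-zero class group and a criterion for a class of order two. -/

set_option autoImplicit false
set_option linter.unusedSectionVars false

open Polynomial WithZero FunctionField IsDedekindDomain

namespace Pool.Agent.Lib.MP_08d8ea_nt

variable {F K : Type} [Field F] [Fintype F] [Field K] [Algebra F K] [Algebra F[X] K]
  [Algebra (RatFunc F) K] [IsScalarTower F[X] (RatFunc F) K] [IsScalarTower F F[X] K]
  [FiniteDimensional (RatFunc F) K] [IsGalois (RatFunc F) K]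

theorem val_poly_le_one (P : Place F K) (hP : P.1 (xx F K) ≤ 1) (q : F[X]) :
    P.1 (algebraMap F[X] K q) ≤ 1 := by
  have := P.2.2
  induction q using Polynomial.induction_on' with
  | add a b ha hb => rw [map_add]; exact P.1.map_add_le ha hb
  | monomial n a =>
    rw [← aeval_xx, aeval_monomial, map_mul, map_pow]
    exact mul_le_one' (Valuation.IsTrivialOn.valuation_algebraMap_le_one P.1 a) (pow_le_one' hP n)

theorem val_int_le_one (P : Place F K) (hP : P.1 (xx F K) ≤ 1) (g : ringOfIntegers F K) :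
    P.1 (g : K) ≤ 1 := by
  obtain ⟨q, hq, hq2⟩ : IsIntegral F[X] (g : K) := g.2
  let φ : F[X] →+* P.1.integer := (algebraMap F[X] K).codRestrict P.1.integer (val_poly_le_one P hP)
  refine (Valuation.integer.integers P.1).mem_of_integral (x := (g : K)) ⟨q.map φ, hq.map φ, ?_⟩
  rw [eval₂_map]
  exact hq2

/-- The place attached to a prime of the ring of integers. -/
noncomputable def aff (𝔭 : HeightOneSpectrum (ringOfIntegers F K)) : Place F K :=
  ⟨𝔭.valuation K, 𝔭.valuation_surjective K, inferInstance⟩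

theorem aff_val (𝔭 : HeightOneSpectrum (ringOfIntegers F K)) (g : ringOfIntegers F K) :
    (aff 𝔭).1 (g : K) = 𝔭.intValuation g := 𝔭.valuation_of_algebraMap g

theorem aff_xx (𝔭 : HeightOneSpectrum (ringOfIntegers F K)) : (aff 𝔭).1 (xx F K) ≤ 1 :=
  𝔭.valuation_le_one (K := K) (algebraMap F[X] (ringOfIntegers F K) X)

theorem aff_inj : Function.Injective (aff : HeightOneSpectrum (ringOfIntegers F K) → Place F K) := by
  intro 𝔭 𝔮 h
  ext g
  rw [← 𝔭.intValuation_lt_one_iff_mem, ← 𝔮.intValuation_lt_one_iff_mem, ← aff_val, ← aff_val, h]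

theorem exists_aff (P : Place F K) (hP : P.1 (xx F K) ≤ 1) : ∃ 𝔭, P = aff 𝔭 := by
  have hle := val_int_le_one P hP
  let I : Ideal (ringOfIntegers F K) :=
    { carrier := {g | P.1 (g : K) < 1}
      zero_mem' := by simp
      add_mem' := fun {a b} ha hb => P.1.map_add_lt ha hb
      smul_mem' := fun c a ha => by
        change P.1 ((c : K) * a) < 1
        rw [map_mul]
        exact lt_of_le_of_lt (mul_le_of_le_one_left' (hle c)) ha }
  have hI : ∀ g : ringOfIntegers F K, g ∈ I ↔ P.1 (g : K) < 1 := fun g => Iff.rfl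
  have hne : ∀ g : ringOfIntegers F K, g ∉ I → P.1 (g : K) = 1 := fun g hg =>
    le_antisymm (hle g) (not_lt.mp hg)
  have hprime : I.IsPrime := by
    refine ⟨?_, fun {a b} hab => ?_⟩
    · rw [Ideal.ne_top_iff_one, hI]
      simp
    · by_contra hcon
      push Not at hcon
      rw [hI, Subalgebra.coe_mul, map_mul, hne a hcon.1, hne b hcon.2, mul_one] at hab
      exact lt_irrefl _ hab
  obtain ⟨z, hz⟩ := P.2.1 (exp 1)
  have hz1 : 1 < P.1 z := by
    rw [hz, ← exp_zero, exp_lt_exp]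
    norm_num
  have hbot : I ≠ ⊥ := by
    intro h
    obtain ⟨a, b, hb, rfl⟩ := IsFractionRing.div_surjective (A := ringOfIntegers F K) z
    have hb1 : P.1 (b : K) = 1 := hne b (by rw [h]; exact nonZeroDivisors.ne_zero hb)
    rw [map_div₀] at hz1
    change 1 < P.1 (a : K) / P.1 (b : K) at hz1
    rw [hb1, div_one] at hz1
    exact absurd (hle a) (not_le.mpr hz1)
  let 𝔭 : HeightOneSpectrum (ringOfIntegers F K) := ⟨I, hprime, hbot⟩
  refine ⟨𝔭, Subtype.ext (eq_of_isEquiv _ _ P.2.1 (aff 𝔭).2.1 ?_)⟩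
  rw [Valuation.isEquiv_iff_valuationSubring]
  change _ = (𝔭.valuation K).valuationSubring
  rw [← 𝔭.valuationSubringAtPrime_eq_valuationSubring]
  refine (ValuationSubring.eq_of_le_of_ne_top _ ?_ ?_).symm
  · rintro x ⟨a, s, hs, rfl⟩
    rw [Valuation.mem_valuationSubring_iff, map_mul, map_inv₀]
    change P.1 (a : K) * (P.1 (s : K))⁻¹ ≤ 1
    rw [hne s hs, inv_one, mul_one]
    exact hle a
  · intro h
    have : z ∈ P.1.valuationSubring := by rw [h]; trivial
    exact absurd this (not_le.mpr hz1)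

instance : Module.Finite F[X] (ringOfIntegers F K) := inferInstance

instance : Module.IsTorsionFree F[X] (ringOfIntegers F K) :=
  Module.isTorsionFree_iff_algebraMap_injective.mpr (ringOfIntegers.algebraMap_injective F K)

instance : Module.Free F[X] (ringOfIntegers F K) := inferInstance

instance : Infinite (ringOfIntegers F K) :=
  Infinite.of_injective _ (ringOfIntegers.algebraMap_injective F K)

/-- The codimension of an ideal. -/
noncomputable def codim (I : Ideal (ringOfIntegers F K)) : ℕ :=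
  Module.finrank F (ringOfIntegers F K ⧸ I)

theorem finite_quot {I : Ideal (ringOfIntegers F K)} (hI : I ≠ ⊥) :
    FiniteDimensional F (ringOfIntegers F K ⧸ I) := by
  have hF : ∀ q : F[X], q ≠ 0 → Module.Finite F (F[X] ⧸ Ideal.span {q}) := fun q hq =>
    (AdjoinRoot.powerBasis hq).finite
  let b := Module.Free.chooseBasis F[X] (ringOfIntegers F K)
  have := fun i => hF _ (Ideal.smithCoeffs_ne_zero b I hI i)
  exact Module.Finite.equiv (Ideal.quotientEquivDirectSum F b hI).symm

theorem card_quot {I : Ideal (ringOfIntegers F K)} (hI : I ≠ ⊥) :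
    Submodule.cardQuot I = Nat.card F ^ codim I := by
  have := finite_quot hI
  rw [Submodule.cardQuot_apply, codim, Module.natCard_eq_pow_finrank (K := F)]

theorem codim_mul {I J : Ideal (ringOfIntegers F K)} (hI : I ≠ ⊥) (hJ : J ≠ ⊥) :
    codim (I * J) = codim I + codim J := by
  have h : Submodule.cardQuot (I * J) = Submodule.cardQuot I * Submodule.cardQuot J :=
    UniqueFactorizationMonoid.multiplicative_of_coprime Submodule.cardQuot I J
      (Submodule.cardQuot_bot _ _)
      (fun {I J} hI => by simp [Ideal.isUnit_iff.mp hI, Ideal.mul_top])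
      (fun {I} i hI =>
        have : Ideal.IsPrime I := Ideal.isPrime_of_prime hI
        cardQuot_pow_of_prime hI.ne_zero)
      fun {I J} hIJ => cardQuot_mul_of_coprime <| Ideal.isCoprime_iff_sup_eq.mpr
        (Ideal.isUnit_iff.mp
          (hIJ (Ideal.dvd_iff_le.mpr le_sup_left) (Ideal.dvd_iff_le.mpr le_sup_right)))
  rw [card_quot (mul_ne_zero hI hJ), card_quot hI, card_quot hJ, ← pow_add] at h
  exact Nat.pow_right_injective (Finite.one_lt_card (α := F)) h

theorem codim_top : codim (⊤ : Ideal (ringOfIntegers F K)) = 0 := by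
  have h := codim_mul (I := (⊤ : Ideal (ringOfIntegers F K))) (J := ⊤) top_ne_bot top_ne_bot
  rw [Ideal.mul_top] at h
  omega

theorem deg_aff (𝔭 : HeightOneSpectrum (ringOfIntegers F K)) :
    deg F K (aff 𝔭) = codim 𝔭.asIdeal := by
  have h1 : Nat.card (IsLocalRing.ResidueField (aff 𝔭).1.valuationSubring)
      = Submodule.cardQuot 𝔭.asIdeal := by
    change Nat.card (IsLocalRing.ResidueField (𝔭.valuation K).valuationSubring) = _
    rw [← 𝔭.valuationSubringAtPrime_eq_valuationSubring, Submodule.cardQuot_apply]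
    have := 𝔭.isMaximal
    exact (Nat.card_congr (IsLocalization.AtPrime.equivQuotMaximalIdeal 𝔭.asIdeal
      (𝔭.valuationSubringAtPrime K)).toEquiv).symm
  rw [deg, h1, card_quot 𝔭.ne_bot, Nat.log_pow (Finite.one_lt_card (α := F))]

theorem mem_Div0 {D : Place F K →₀ ℤ} :
    D ∈ Div0 F K ↔ Finsupp.linearCombination ℤ (fun P => (deg F K P : ℤ)) D = 0 := Iff.rfl

namespace TotRam

variable {τ : K} {μ : K → ℤ} {n : ℕ}

theorem mu_int (h : TotRam F K τ μ n) {g : ringOfIntegers F K} (hg : g ≠ 0) :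
    μ g = codim (Ideal.span {g}) := by
  have hg' : (g : K) ≠ 0 := fun h0 => hg (Subtype.ext h0)
  have := IsIntegralClosure.isLocalization F[X] (RatFunc F) K (ringOfIntegers F K)
  have h1 := Algebra.norm_localization F[X] (nonZeroDivisors F[X]) (Rₘ := RatFunc F) (Sₘ := K) g
  rw [h.mu_norm hg', codim,
    finrank_quotient_span_eq_natDegree_norm (Module.Free.chooseBasis F[X] _) hg]
  change (Algebra.norm (RatFunc F) (algebraMap (ringOfIntegers F K) K g)).intDegree = _
  rw [h1, RatFunc.intDegree_polynomial]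

/-- The place at infinity. -/
noncomputable def inf (h : TotRam F K τ μ n) : Place F K :=
  ⟨h.exists_vinf.choose, h.exists_vinf.choose_spec.1, h.exists_vinf.choose_spec.2.1⟩

theorem inf_xx (h : TotRam F K τ μ n) : 1 < h.inf.1 (xx F K) := h.exists_vinf.choose_spec.2.2.1

theorem cases (h : TotRam F K τ μ n) (P : Place F K) : P = h.inf ∨ ∃ 𝔭, P = aff 𝔭 := by
  rcases le_or_gt (P.1 (xx F K)) 1 with hP | hP
  · exact Or.inr (exists_aff P hP)
  · refine Or.inl (Subtype.ext ?_)
    ext z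
    by_cases hz : z = 0
    · simp [hz]
    · rw [h.place_val P hP hz, h.place_val _ h.inf_xx hz]

theorem aff_ne (h : TotRam F K τ μ n) (𝔭 : HeightOneSpectrum (ringOfIntegers F K)) :
    aff 𝔭 ≠ h.inf := fun e => absurd (aff_xx 𝔭) (by rw [e]; exact not_le.mpr h.inf_xx)

/-- The degree-zero divisor attached to a prime. -/
noncomputable def gen (h : TotRam F K τ μ n) (P : Place F K) : Place F K →₀ ℤ :=
  Finsupp.single P 1 - (deg F K P : ℤ) • Finsupp.single h.inf 1

theorem gen_mem (h : TotRam F K τ μ n) (P : Place F K) : h.gen P ∈ Div0 F K := by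
  simp [mem_Div0, gen, h.deg_infty _ h.inf_xx]

/-- `D` is the degree-zero divisor attached to the ideal `I`. -/
def IsDiv (h : TotRam F K τ μ n) (I : Ideal (ringOfIntegers F K)) (D : Place F K →₀ ℤ) : Prop :=
  (∀ 𝔭, D (aff 𝔭) = multiplicity 𝔭.asIdeal I) ∧ D h.inf = -(codim I : ℤ)

theorem IsDiv.unique {h : TotRam F K τ μ n} {I : Ideal (ringOfIntegers F K)}
    {D E : Place F K →₀ ℤ} (hD : h.IsDiv I D) (hE : h.IsDiv I E) : D = E := by
  ext P
  rcases h.cases P with rfl | ⟨𝔭, rfl⟩
  · rw [hD.2, hE.2]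
  · rw [hD.1, hE.1]

theorem IsDiv.mul {h : TotRam F K τ μ n} {I J : Ideal (ringOfIntegers F K)} (hI : I ≠ ⊥)
    (hJ : J ≠ ⊥) {D E : Place F K →₀ ℤ} (hD : h.IsDiv I D) (hE : h.IsDiv J E) :
    h.IsDiv (I * J) (D + E) := by
  refine ⟨fun 𝔭 => ?_, ?_⟩
  · rw [Finsupp.add_apply, hD.1, hE.1, multiplicity_mul 𝔭.prime
      (FiniteMultiplicity.of_prime_left 𝔭.prime (mul_ne_zero hI hJ))]
    push_cast
    rfl
  · rw [Finsupp.add_apply, hD.2, hE.2, codim_mul hI hJ]
    push_cast
    ring

theorem isDiv_top (h : TotRam F K τ μ n) : h.IsDiv ⊤ 0 := by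
  refine ⟨fun 𝔭 => ?_, by simp [codim_top]⟩
  rw [multiplicity_eq_zero.mpr (fun hd => 𝔭.isPrime.ne_top (top_le_iff.mp (Ideal.dvd_iff_le.mp hd)))]
  rfl

theorem isDiv_prime (h : TotRam F K τ μ n) (𝔮 : HeightOneSpectrum (ringOfIntegers F K)) :
    h.IsDiv 𝔮.asIdeal (h.gen (aff 𝔮)) := by
  classical
  refine ⟨fun 𝔭 => ?_, ?_⟩
  · simp only [gen, Finsupp.sub_apply, Finsupp.smul_apply, Finsupp.single_apply,
      if_neg (h.aff_ne 𝔭).symm, smul_zero, sub_zero, aff_inj.eq_iff]
    split_ifs with e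
    · rw [e, multiplicity_self]
      rfl
    · rw [multiplicity_eq_zero.mpr]
      · rfl
      · intro hd
        refine e (HeightOneSpectrum.ext ?_)
        exact 𝔮.isMaximal.eq_of_le 𝔭.isPrime.ne_top (Ideal.dvd_iff_le.mp hd)
  · simp [gen, Finsupp.single_apply, if_neg (h.aff_ne 𝔮), deg_aff]

theorem exists_isDiv (h : TotRam F K τ μ n) (I : Ideal (ringOfIntegers F K)) (hI : I ≠ ⊥) :
    ∃ D ∈ Div0 F K, h.IsDiv I D := by
  induction I using UniqueFactorizationMonoid.induction_on_prime with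
  | h₁ => exact absurd rfl hI
  | h₂ I hu =>
    rw [Ideal.isUnit_iff.mp hu]
    exact ⟨0, zero_mem _, h.isDiv_top⟩
  | h₃ J 𝔮 hJ h𝔮 ih =>
    obtain ⟨D, hD, hD'⟩ := ih hJ
    let q : HeightOneSpectrum (ringOfIntegers F K) := ⟨𝔮, Ideal.isPrime_of_prime h𝔮, h𝔮.ne_zero⟩
    exact ⟨_, add_mem (h.gen_mem (aff q)) hD, IsDiv.mul q.ne_bot hJ (h.isDiv_prime q) hD'⟩

theorem IsDiv.val {h : TotRam F K τ μ n} {g : ringOfIntegers F K} (hg : g ≠ 0)
    {D : Place F K →₀ ℤ} (hD : h.IsDiv (Ideal.span {g}) D) (P : Place F K) :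
    P.1 (g : K) = exp (-D P) := by
  have hg' : (g : K) ≠ 0 := fun h0 => hg (Subtype.ext h0)
  rcases h.cases P with rfl | ⟨𝔭, rfl⟩
  · rw [h.place_val _ h.inf_xx hg', hD.2, neg_neg, h.mu_int hg]
  · rw [aff_val, hD.1, 𝔭.intValuation_eq_exp_neg_multiplicity hg]

theorem IsDiv.prin {h : TotRam F K τ μ n} {g : ringOfIntegers F K} (hg : g ≠ 0)
    {D : Place F K →₀ ℤ} (hD : h.IsDiv (Ideal.span {g}) D) : D ∈ Prin F K :=
  ⟨g, fun h0 => hg (Subtype.ext h0), hD.val hg⟩

theorem finite_pic (h : TotRam F K τ μ n) : Finite (Pic0 F K) := by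
  classical
  -- the classes of ideals
  let R : Ideal (ringOfIntegers F K) → Pic0 F K → Prop := fun I c =>
    I ≠ ⊥ ∧ ∃ D : Div0 F K, h.IsDiv I D ∧ c = QuotientAddGroup.mk D
  have hex : ∀ I, I ≠ ⊥ → ∃ c, R I c := fun I hI => by
    obtain ⟨D, hD, hD'⟩ := h.exists_isDiv I hI
    exact ⟨_, hI, ⟨D, hD⟩, hD', rfl⟩
  have huniq : ∀ I c c', R I c → R I c' → c = c' := by
    rintro I _ _ ⟨-, D, hD, rfl⟩ ⟨-, E, hE, rfl⟩
    rw [Subtype.ext (hD.unique hE)]
  have hmul : ∀ I J c c', R I c → R J c' → R (I * J) (c + c') := by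
    rintro I J _ _ ⟨hI, D, hD, rfl⟩ ⟨hJ, E, hE, rfl⟩
    exact ⟨mul_ne_zero hI hJ, D + E, hD.mul hI hJ hE, rfl⟩
  have hprin : ∀ g : ringOfIntegers F K, g ≠ 0 → R (Ideal.span {g}) 0 := by
    intro g hg
    have hg' : Ideal.span {g} ≠ ⊥ := by simpa using hg
    obtain ⟨D, hD, hD'⟩ := h.exists_isDiv _ hg'
    refine ⟨hg', ⟨D, hD⟩, hD', ?_⟩
    rw [eq_comm, QuotientAddGroup.eq_zero_iff]
    exact hD'.prin hg
  let H : AddSubgroup (Pic0 F K) :=
    { carrier := {c | ∃ I, R I c}
      zero_mem' := ⟨_, hprin 1 one_ne_zero⟩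
      add_mem' := by
        rintro c c' ⟨I, hI⟩ ⟨J, hJ⟩
        exact ⟨_, hmul I J c c' hI hJ⟩
      neg_mem' := by
        rintro c ⟨I, hI⟩
        obtain ⟨g, hgI, hg⟩ := Submodule.exists_mem_ne_zero_of_ne_bot hI.1
        obtain ⟨J, hJ⟩ := Ideal.dvd_iff_le.mpr ((Ideal.span_singleton_le_iff_mem I).mpr hgI)
        have hJ0 : J ≠ ⊥ := by
          rintro rfl
          simp [hg] at hJ
        obtain ⟨c', hc'⟩ := hex J hJ0
        have := huniq _ _ _ (hmul I J c c' hI hc') (hJ ▸ hprin g hg)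
        exact ⟨J, by rwa [neg_eq_of_add_eq_zero_right this]⟩ }
  have hH : ∀ c, c ∈ H := by
    intro c
    obtain ⟨D, rfl⟩ := QuotientAddGroup.mk_surjective c
    have h1 : D = ∑ P ∈ D.1.support, D.1 P • (⟨h.gen P, h.gen_mem P⟩ : Div0 F K) := by
      apply Subtype.ext
      have h2 := mem_Div0.mp D.2
      rw [Finsupp.linearCombination_apply, Finsupp.sum] at h2
      simp only [AddSubgroup.val_finsetSum, AddSubgroup.coe_zsmul, gen, smul_sub,
        Finset.sum_sub_distrib, smul_smul, ← Finset.sum_smul]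
      simp only [smul_eq_mul] at h2
      rw [h2, zero_smul, sub_zero]
      simp only [Finsupp.smul_single, smul_eq_mul, mul_one]
      exact (Finsupp.sum_single D.1).symm
    rw [h1, ← QuotientAddGroup.mk'_apply, map_sum]
    refine sum_mem fun P _ => ?_
    rw [map_zsmul]
    refine zsmul_mem ?_ _
    rcases h.cases P with rfl | ⟨𝔭, rfl⟩
    · refine ⟨⊤, top_ne_bot, _, ?_, rfl⟩
      convert h.isDiv_top
      simp [gen, h.deg_infty _ h.inf_xx]
    · exact ⟨𝔭.asIdeal, 𝔭.ne_bot, _, h.isDiv_prime 𝔭, rfl⟩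
  choose I hI using hH
  refine Finite.of_injective
    (fun c => ClassGroup.mk0 ⟨I c, mem_nonZeroDivisors_of_ne_zero (hI c).1⟩) fun c c' hc => ?_
  obtain ⟨x, y, hx, hy, hxy⟩ := ClassGroup.mk0_eq_mk0_iff.mp hc
  have h1 := hmul _ _ _ _ (hprin x hx) (hI c)
  have h2 := hmul _ _ _ _ (hprin y hy) (hI c')
  simp only [zero_add] at h1 h2 hxy
  exact huniq _ _ _ h1 (hxy ▸ h2)

/-- A function with even divisor that is not a constant times a square gives a class of
order two. -/
theorem even_card (h : TotRam F K τ μ n) (f u α r s : ringOfIntegers F K) (hα : α ≠ 0)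
    (h1 : f * u = α ^ 2) (h2 : r * f + s * u = 1)
    (h3 : ∀ (c : F) (g : ringOfIntegers F K), (f : K) ≠ algebraMap F K c * g ^ 2) :
    Even (Nat.card (Pic0 F K)) := by
  classical
  have hfu : f * u ≠ 0 := by rw [h1]; exact pow_ne_zero _ hα
  have hf : f ≠ 0 := left_ne_zero_of_mul hfu
  have hf' : (f : K) ≠ 0 := fun h0 => hf (Subtype.ext h0)
  obtain ⟨D, hD0, hD⟩ := h.exists_isDiv (Ideal.span {f}) (by simpa using hf)
  have hval := hD.val hf
  have haff : ∀ 𝔭, Even (D (aff 𝔭)) := by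
    intro 𝔭
    by_cases hm : f ∈ 𝔭.asIdeal
    · have hu : u ∉ 𝔭.asIdeal := fun hu => 𝔭.isPrime.ne_top (by
        rw [Ideal.eq_top_iff_one, ← h2]
        exact add_mem (Ideal.mul_mem_left _ _ hm) (Ideal.mul_mem_left _ _ hu))
      have e1 := congrArg 𝔭.intValuation h1
      rw [map_mul, map_pow, HeightOneSpectrum.intValuation_eq_one_iff.mpr hu, mul_one, ← aff_val,
        hval, 𝔭.intValuation_eq_exp_neg_multiplicity hα, ← exp_nsmul, exp_inj] at e1
      refine ⟨multiplicity 𝔭.asIdeal (Ideal.span {α}), ?_⟩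
      simp only [nsmul_eq_mul, Nat.cast_ofNat] at e1
      linarith
    · have e1 := HeightOneSpectrum.intValuation_eq_one_iff.mpr hm
      rw [← aff_val, hval, exp_eq_one, neg_eq_zero] at e1
      rw [e1]
      exact Even.zero
  have hinf : Even (D h.inf) := by
    have e1 := mem_Div0.mp hD0
    rw [Finsupp.linearCombination_apply, Finsupp.sum_of_support_subset D
      (Finset.subset_insert h.inf _) _ (by simp), ← Finset.add_sum_erase _ _
      (Finset.mem_insert_self _ _), h.deg_infty _ h.inf_xx] at e1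
    have e2 : Even (∑ P ∈ (insert h.inf D.support).erase h.inf, D P • (deg F K P : ℤ)) := by
      refine Finset.even_sum _ fun P hP => ?_
      rcases h.cases P with rfl | ⟨𝔭, rfl⟩
      · exact absurd rfl (Finset.mem_erase.mp hP).1
      · exact (haff 𝔭).mul_right _
    simp only [Nat.cast_one, smul_eq_mul, mul_one] at e1 e2
    rw [eq_neg_of_add_eq_zero_left e1]
    exact e2.neg
  have hall : ∀ P, 2 ∣ D P := fun P => by
    rcases h.cases P with rfl | ⟨𝔭, rfl⟩
    · exact hinf.two_dvd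
    · exact (haff 𝔭).two_dvd
  set E : Place F K →₀ ℤ := D.mapRange (· / 2) (by simp) with hE
  have hED : (2 : ℤ) • E = D := by
    ext P
    simp [hE, Int.mul_ediv_cancel' (hall P)]
  have hE0 : E ∈ Div0 F K := by
    have e1 := mem_Div0.mp hD0
    rw [← hED, map_smul, smul_eq_zero] at e1
    exact e1.resolve_left (by norm_num)
  have hord : addOrderOf (QuotientAddGroup.mk ⟨E, hE0⟩ : Pic0 F K) = 2 := by
    refine addOrderOf_eq_prime ?_ ?_
    · rw [← QuotientAddGroup.mk_nsmul, QuotientAddGroup.eq_zero_iff]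
      change 2 • E ∈ Prin F K
      rw [← natCast_zsmul, Nat.cast_ofNat, hED]
      exact hD.prin hf
    · rw [Ne, QuotientAddGroup.eq_zero_iff]
      rintro ⟨g, hg0, hg⟩
      have e1 : ∀ P : Place F K, P.1 (f / g ^ 2 : K) = 1 := by
        intro P
        rw [map_div₀, map_pow, hval, hg, ← hED, ← exp_nsmul, ← exp_sub, exp_eq_one]
        simp
      obtain ⟨c, hc⟩ := HeightOneSpectrum.mem_integers_of_valuation_le_one
        (R := ringOfIntegers F K) K (f / g ^ 2 : K) fun 𝔭 => (e1 (aff 𝔭)).le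
      have := h.inf.2.2
      obtain ⟨c₀, hc₀⟩ := (h.val _ h.inf.1 h.inf_xx).2.2 _ (e1 h.inf).le
      have e2 : c = algebraMap F (ringOfIntegers F K) c₀ := by
        by_contra hne
        have e3 : c - algebraMap F (ringOfIntegers F K) c₀ ≠ 0 := sub_ne_zero.mpr hne
        have e4 := h.place_val _ h.inf_xx (z := ((c - algebraMap F (ringOfIntegers F K) c₀ :
          ringOfIntegers F K) : K)) fun h0 => e3 (Subtype.ext h0)
        rw [h.mu_int e3] at e4
        rw [← hc] at hc₀
        change h.inf.1 ((c - algebraMap F (ringOfIntegers F K) c₀ : ringOfIntegers F K) : K) < 1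
          at hc₀
        rw [e4, ← exp_zero, exp_lt_exp] at hc₀
        omega
      have e5 : (f : K) = algebraMap F K c₀ * g ^ 2 := by
        rw [e2] at hc
        change algebraMap F K c₀ = _ at hc
        rw [hc, div_mul_cancel₀ _ (pow_ne_zero _ hg0)]
      obtain ⟨g', hg'⟩ := HeightOneSpectrum.mem_integers_of_valuation_le_one
        (R := ringOfIntegers F K) K g fun 𝔭 => by
          have e6 := hg (aff 𝔭)
          change 𝔭.valuation K g = _ at e6
          rw [e6, ← exp_zero, exp_le_exp]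
          have e7 := hD.1 𝔭
          rw [← hED] at e7
          simp only [Finsupp.smul_apply, smul_eq_mul] at e7
          change -E (aff 𝔭) ≤ 0
          omega
      exact h3 c₀ g' (by rw [e5, ← hg']; rfl)
  exact even_iff_two_dvd.mpr (hord ▸ addOrderOf_dvd_natCard _)

end TotRam

end Pool.Agent.Lib.MP_08d8ea_nt
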