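import Mathlib
import Pool.Agent.Lib.MP_08d8ea_nt.Pic
import Pool.Agent.Lib.MP_08d8ea_nt.Cert

/-! The curve `y ^ 11 = x (8 - x) ^ 2` over the field with 199 elements. -/

set_option autoImplicit false
set_option linter.unusedSectionVars false

open Polynomial WithZero FunctionField IsDedekindDomain

namespace Pool.Agent.Lib.MP_08d8ea_nt

theorem exists_const {F : Type} [Field F] (r : RatFunc F) (hr : r ≠ 0) (h : r.intDegree = 0) :
    ∃ c : F, r - RatFunc.C c = 0 ∨ (r - RatFunc.C c).intDegree < 0 := by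
  refine ⟨r.num.leadingCoeff, ?_⟩
  have hn : r.num ≠ 0 := RatFunc.num_ne_zero hr
  have hd : r.denom ≠ 0 := r.denom_ne_zero
  have hd' : algebraMap F[X] (RatFunc F) r.denom ≠ 0 := RatFunc.algebraMap_ne_zero hd
  have hlc : r.num.leadingCoeff ≠ 0 := leadingCoeff_ne_zero.mpr hn
  have hdeg : r.num.natDegree = r.denom.natDegree := by
    rw [RatFunc.intDegree] at h
    omega
  set q : F[X] := r.num - C r.num.leadingCoeff * r.denom with hq
  have h1 : r - RatFunc.C r.num.leadingCoeff
      = algebraMap F[X] (RatFunc F) q / algebraMap F[X] (RatFunc F) r.denom := by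
    rw [hq, map_sub, map_mul, sub_div, RatFunc.num_div_denom, mul_div_assoc, div_self hd', mul_one,
      RatFunc.algebraMap_C]
  by_cases hq0 : q = 0
  · left
    rw [h1, hq0, map_zero, zero_div]
  · right
    have h2 : q.degree < r.num.degree := by
      refine degree_sub_lt_left ?_ hn ?_
      · rw [degree_C_mul hlc, degree_eq_natDegree hn, degree_eq_natDegree hd, hdeg]
      · rw [leadingCoeff_mul, leadingCoeff_C, r.monic_denom.leadingCoeff, mul_one]
    have h3 := natDegree_lt_natDegree hq0 h2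
    rw [h1, RatFunc.intDegree_div (RatFunc.algebraMap_ne_zero hq0) hd',
      RatFunc.intDegree_polynomial, RatFunc.intDegree_polynomial]
    omega

section

variable {F K : Type} [Field F] [Field K] [Algebra F K] [Algebra F[X] K] [Algebra (RatFunc F) K]
  [IsScalarTower F[X] (RatFunc F) K] [IsScalarTower F F[X] K]

theorem totRam (pb : PowerBasis (RatFunc F) K) (hdim : pb.dim = 11) (m : F[X]) (hm0 : m ≠ 0)
    (hm : m.natDegree = 3) (hy : pb.gen ^ 11 = algebraMap F[X] K m) :
    ∃ μ : K → ℤ, TotRam F K (pb.gen ^ 4 / xx F K) μ 11 := by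
  classical
  set y := pb.gen with hydef
  let e : K → Fin pb.dim → ℤ := fun z i => 11 * (pb.basis.repr z i).intDegree + 3 * (i : ℕ)
  have hex : ∀ z : K, ∃ j : Option (Fin pb.dim), z ≠ 0 → ∃ j', j = some j' ∧
      pb.basis.repr z j' ≠ 0 ∧ ∀ i, pb.basis.repr z i ≠ 0 → i ≠ j' → e z i < e z j' := by
    intro z
    by_cases hz : z = 0
    · exact ⟨none, fun h => absurd hz h⟩
    have h1 : (pb.basis.repr z).support.Nonempty := by
      rw [Finsupp.support_nonempty_iff]
      exact fun h => hz (pb.basis.repr.map_eq_zero_iff.mp h)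
    obtain ⟨j, hj, hmax⟩ := Finset.exists_max_image _ (e z) h1
    refine ⟨some j, fun _ => ⟨j, rfl, Finsupp.mem_support_iff.mp hj, fun i hi hij => ?_⟩⟩
    refine lt_of_le_of_ne (hmax i (Finsupp.mem_support_iff.mpr hi)) fun h => hij (Fin.ext ?_)
    have h2 := i.2
    have h3 := j.2
    simp only [e] at h
    omega
  choose J hJ using hex
  refine ⟨fun z => (J z).elim 0 (e z), by norm_num, by rw [pb.finrank, hdim], ?_⟩
  intro Γ _ w _ hw
  have hx0 : w (xx F K) ≠ 0 := ne_zero_of_lt hw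
  have hwy : w y ^ 11 = w (xx F K) ^ 3 := by
    rw [← map_pow, hy, ← aeval_xx,
      valuation_aeval_eq_valuation_X_pow_natDegree_of_one_lt_valuation_X _ hw hm0, hm]
  set T := w (y ^ 4 / xx F K) with hT
  have hT11 : T ^ 11 = w (xx F K) := by
    rw [hT, map_div₀, map_pow, div_pow, ← pow_mul, mul_comm, pow_mul, hwy, ← pow_mul,
      div_eq_iff (pow_ne_zero _ hx0), ← pow_succ']
  have hT3 : T ^ 3 = w y := by
    rw [hT, map_div₀, map_pow, div_pow, ← pow_mul, div_eq_iff (pow_ne_zero _ hx0), ← hwy,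
      ← pow_succ']
  have hT1 : 1 < T := by
    rw [← hT11] at hw
    exact (one_lt_pow_iff (by norm_num)).mp hw
  have hT0 : T ≠ 0 := ne_zero_of_lt hT1
  have hmono := zpow_right_strictMono₀ hT1
  have hterm : ∀ (z : K) (i : Fin pb.dim), pb.basis.repr z i ≠ 0 →
      w (pb.basis.repr z i • pb.basis i) = T ^ e z i := by
    intro z i hi
    rw [Algebra.smul_def, map_mul, val_ratFunc w hw hi, pb.basis_eq_pow, map_pow, ← hT11, ← hT3,
      ← pow_mul, ← zpow_natCast, ← zpow_natCast, ← zpow_mul, ← zpow_add₀ hT0]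
    simp [e]
  have hval : ∀ z : K, z ≠ 0 → w z = T ^ ((J z).elim 0 (e z)) := by
    intro z hz
    obtain ⟨j, hj, hj0, hmax⟩ := hJ z hz
    rw [hj, Option.elim_some, ← hterm z j hj0]
    conv_lhs => rw [← pb.basis.sum_repr z]
    refine Valuation.map_sum_eq_of_lt w (Finset.mem_univ j) fun i hi => ?_
    have hij : i ≠ j := by simpa using hi
    rw [hterm z j hj0]
    by_cases hi0 : pb.basis.repr z i = 0
    · rw [hi0, zero_smul, map_zero]
      exact zpow_pos (zero_lt_iff.mpr hT0) _
    · rw [hterm z i hi0]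
      exact hmono (hmax i hi0 hij)
  refine ⟨hT11, hval, fun z hz => ?_⟩
  rcases lt_or_eq_of_le hz with hlt | heq
  · exact ⟨0, by simpa using hlt⟩
  have hz0 : z ≠ 0 := by
    rintro rfl
    simp at heq
  obtain ⟨j, hj, hj0, hmax⟩ := hJ z hz0
  have h1 : e z j = 0 := by
    have := hval z hz0
    rw [hj, Option.elim_some, heq, ← zpow_zero T] at this
    exact (hmono.injective this).symm
  have h2 : (j : ℕ) = 0 ∧ (pb.basis.repr z j).intDegree = 0 := by
    have h3 := j.2
    simp only [e] at h1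
    omega
  obtain ⟨c, hc⟩ := exists_const _ hj0 h2.2
  refine ⟨c, ?_⟩
  have h4 : z - algebraMap F K c = algebraMap (RatFunc F) K (pb.basis.repr z j - RatFunc.C c)
      + ∑ i ∈ Finset.univ.erase j, pb.basis.repr z i • pb.basis i := by
    conv_lhs => rw [← pb.basis.sum_repr z, ← Finset.add_sum_erase _ _ (Finset.mem_univ j)]
    rw [map_sub, algebraMap_C, pb.basis_eq_pow j, h2.1, pow_zero, Algebra.smul_def, mul_one]
    ring
  rw [h4]
  refine w.map_add_lt ?_ (w.map_sum_lt one_ne_zero fun i hi => ?_)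
  · by_cases h5 : pb.basis.repr z j - RatFunc.C c = 0
    · simp [h5]
    · rw [val_ratFunc w hw h5]
      exact zpow_lt_one_of_neg₀ hw (hc.resolve_left h5)
  · by_cases hi0 : pb.basis.repr z i = 0
    · simp [hi0]
    · rw [hterm z i hi0, ← zpow_zero T]
      exact hmono (h1 ▸ hmax i hi0 (Finset.mem_erase.mp hi).1)

theorem mem_adjoin [FiniteDimensional (RatFunc F) K] [Algebra.IsSeparable (RatFunc F) K] (y : K)
    (hy : Algebra.adjoin (RatFunc F) {y} = ⊤) (hint : IsIntegral F[X] y) (g : K)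
    (hg : IsIntegral F[X] g) :
    ∃ H : F[X][X], aeval y H = aeval y (derivative (minpoly (RatFunc F) y)) * g := by
  have h1 : g ∈ (Algebra.traceForm (RatFunc F) K).dualSubmodule
      (Subalgebra.toSubmodule (Algebra.adjoin F[X] {y})) := by
    intro b hb
    have hb' : IsIntegral F[X] b := (IsIntegral.of_mem_of_fg _ hint.fg_adjoin_singleton _ hb)
    have h2 := Algebra.isIntegral_trace (L := RatFunc F) (hg.mul hb')
    obtain ⟨q, hq⟩ := IsIntegrallyClosed.isIntegral_iff.mp h2
    exact Submodule.mem_one.mpr ⟨q, hq⟩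
  rw [traceForm_dualSubmodule_adjoin F[X] (RatFunc F) hy hint] at h1
  obtain ⟨b, hb, hbg⟩ := (Submodule.mem_smul_pointwise_iff_exists _ _ _).mp h1
  have hb' : b ∈ Algebra.adjoin F[X] {y} := hb
  rw [Algebra.adjoin_singleton_eq_range_aeval] at hb'
  obtain ⟨H, rfl⟩ := hb'
  refine ⟨H, ?_⟩
  have h3 : aeval y (derivative (minpoly (RatFunc F) y)) ≠ 0 :=
    (Algebra.IsSeparable.isSeparable (RatFunc F) y).aeval_derivative_ne_zero (minpoly.aeval _ _)
  rw [← hbg, smul_eq_mul, mul_inv_cancel_left₀ h3]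
  rfl

end

instance fact199 : Fact (Nat.Prime 199) := ⟨by norm_num⟩

/-- The right-hand side of the equation of the curve. -/
noncomputable def mm : (ZMod 199)[X] := X * (C 8 - X) ^ 2

theorem mm_natDegree : mm.natDegree = 3 := by
  unfold mm
  compute_degree!

theorem mm_ne : mm ≠ 0 := by
  intro h
  have := mm_natDegree
  rw [h] at this
  simp at this

theorem irr : Irreducible
    (X ^ 11 - C (algebraMap (ZMod 199)[X] (RatFunc (ZMod 199)) mm) : (RatFunc (ZMod 199))[X]) := by
  refine X_pow_sub_C_irreducible_of_prime (by norm_num) fun b hb => ?_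
  have hm := RatFunc.algebraMap_ne_zero mm_ne
  have hb0 : b ≠ 0 := by
    rintro rfl
    exact hm (by rw [← hb]; simp)
  have h1 : ∀ n : ℕ, (b ^ n).intDegree = n * b.intDegree := by
    intro n
    induction n with
    | zero => simp
    | succ n ih =>
      rw [pow_succ, RatFunc.intDegree_mul (pow_ne_zero _ hb0) hb0, ih]
      push_cast
      ring
  have h2 := h1 11
  rw [hb, RatFunc.intDegree_polynomial, mm_natDegree] at h2
  omega

instance factIrr : Fact (Irreducible
    (X ^ 11 - C (algebraMap (ZMod 199)[X] (RatFunc (ZMod 199)) mm) : (RatFunc (ZMod 199))[X])) :=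
  ⟨irr⟩

/-- The function field. -/
abbrev KK : Type :=
  AdjoinRoot (X ^ 11 - C (algebraMap (ZMod 199)[X] (RatFunc (ZMod 199)) mm) : (RatFunc (ZMod 199))[X])

theorem prim : (primitiveRoots 11 (RatFunc (ZMod 199))).Nonempty := by
  have h : IsPrimitiveRoot (61 : ZMod 199) 11 := by
    have : Fact (Nat.Prime 11) := ⟨by norm_num⟩
    have h1 : orderOf (61 : ZMod 199) = 11 := orderOf_eq_prime (by decide +kernel) (by decide +kernel)
    exact h1 ▸ IsPrimitiveRoot.orderOf _
  exact ⟨_, (mem_primitiveRoots (by norm_num)).mpr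
    (h.map_of_injective (algebraMap (ZMod 199) (RatFunc (ZMod 199))).injective)⟩

/-- The power basis. -/
noncomputable def pbK : PowerBasis (RatFunc (ZMod 199)) KK := AdjoinRoot.powerBasis irr.ne_zero

instance : FiniteDimensional (RatFunc (ZMod 199)) KK := pbK.finite

instance : IsGalois (RatFunc (ZMod 199)) KK :=
  have := isSplittingField_AdjoinRoot_X_pow_sub_C prim irr
  isGalois_of_isSplittingField_X_pow_sub_C prim irr KK

/-- The second coordinate. -/
noncomputable def yy : KK := pbK.gen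

theorem yy_pow : yy ^ 11 = algebraMap (ZMod 199)[X] KK mm := by
  have h := AdjoinRoot.eval₂_root
    (X ^ 11 - C (algebraMap (ZMod 199)[X] (RatFunc (ZMod 199)) mm) : (RatFunc (ZMod 199))[X])
  rw [eval₂_sub, eval₂_X_pow, eval₂_C, sub_eq_zero] at h
  exact h

theorem yy_eq : yy ^ 11 = xx (ZMod 199) KK * (8 - xx (ZMod 199) KK) ^ 2 := by
  rw [yy_pow, ← aeval_xx mm]
  simp only [mm, map_mul, map_pow, map_sub, aeval_X, map_ofNat]

theorem minpoly_yy : minpoly (RatFunc (ZMod 199)) yy
    = X ^ 11 - C (algebraMap (ZMod 199)[X] (RatFunc (ZMod 199)) mm) :=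
  AdjoinRoot.minpoly_powerBasis_gen_of_monic (monic_X_pow_sub_C _ (by norm_num))

theorem yy_int : IsIntegral (ZMod 199)[X] yy :=
  ⟨X ^ 11 - C mm, monic_X_pow_sub_C _ (by norm_num), by
    rw [eval₂_sub, eval₂_X_pow, eval₂_C, yy_pow, sub_self]⟩

theorem minpoly_yy' : minpoly (ZMod 199)[X] yy = X ^ 11 - C mm := by
  apply map_injective (algebraMap (ZMod 199)[X] (RatFunc (ZMod 199))) (IsFractionRing.injective _ _)
  rw [← minpoly.isIntegrallyClosed_eq_field_fractions' (RatFunc (ZMod 199)) yy_int, minpoly_yy]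
  simp

theorem adjoin_top : IntermediateField.adjoin (ZMod 199) {xx (ZMod 199) KK, yy} = ⊤ := by
  set L := IntermediateField.adjoin (ZMod 199) {xx (ZMod 199) KK, yy} with hL
  have hx : xx (ZMod 199) KK ∈ L := IntermediateField.subset_adjoin _ _ (by simp)
  have hy : yy ∈ L := IntermediateField.subset_adjoin _ _ (by simp)
  have h1 : ∀ q : (ZMod 199)[X], algebraMap (ZMod 199)[X] KK q ∈ L := by
    intro q
    rw [← aeval_xx q]
    exact Algebra.adjoin_le (S := L.toSubalgebra) (Set.singleton_subset_iff.mpr hx)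
      (aeval_mem_adjoin_singleton _ _)
  have h2 : ∀ r : RatFunc (ZMod 199), algebraMap (RatFunc (ZMod 199)) KK r ∈ L := by
    intro r
    rw [← r.num_div_denom, map_div₀, ← IsScalarTower.algebraMap_apply,
      ← IsScalarTower.algebraMap_apply]
    exact div_mem (h1 _) (h1 _)
  rw [eq_top_iff]
  intro z _
  rw [← pbK.basis.sum_repr z]
  refine sum_mem fun i _ => ?_
  rw [Algebra.smul_def, pbK.basis_eq_pow]
  exact mul_mem (h2 _) (pow_mem hy _)

theorem main : Finite (Pic0 (ZMod 199) KK) ∧ Even (Nat.card (Pic0 (ZMod 199) KK)) := by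
  obtain ⟨μ, h⟩ := totRam pbK (by simp [pbK]) mm mm_ne mm_natDegree yy_pow
  refine ⟨h.finite_pic, ?_⟩
  set x := xx (ZMod 199) KK with hx
  have hu : (8 : KK) - x ≠ 0 := by
    intro h0
    have h1 := yy_pow
    rw [yy_eq, ← hx, h0] at h1
    exact mm_ne (FunctionField.algebraMap_injective (ZMod 199) KK (by rw [← h1]; simp))
  set t : KK := yy ^ 6 / (8 - x) with ht
  have e2 : t * (8 - x) = yy ^ 6 := div_mul_cancel₀ _ hu
  have e1 : t ^ 2 = x * yy := by
    apply mul_right_cancel₀ (pow_ne_zero 2 hu)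
    linear_combination (t * (8 - x) + yy ^ 6) * e2 + yy * yy_eq
  have e3 : t * yy ^ 5 = x * (8 - x) := by
    apply mul_right_cancel₀ hu
    linear_combination yy ^ 5 * e2 + yy_eq
  have hxi : IsIntegral (ZMod 199)[X] x := isIntegral_algebraMap
  have hti : IsIntegral (ZMod 199)[X] t := by
    refine IsIntegral.of_pow (n := 2) (by norm_num) ?_
    rw [e1]
    exact hxi.mul yy_int
  let x' : ringOfIntegers (ZMod 199) KK := ⟨x, hxi⟩
  let y' : ringOfIntegers (ZMod 199) KK := ⟨yy, yy_int⟩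
  let t' : ringOfIntegers (ZMod 199) KK := ⟨t, hti⟩
  have h199 : (199 : KK) = 0 := by
    have : CharP KK 199 := charP_of_injective_algebraMap (algebraMap (ZMod 199) KK).injective 199
    exact_mod_cast CharP.cast_eq_zero KK 199
  obtain ⟨u, r, s, c1, c2⟩ := cert x' y' t' (Subtype.ext e1)
    (Subtype.ext (by change t * x = 8 * t - yy ^ 6; linear_combination -e2))
    (Subtype.ext (by change x ^ 2 = 8 * x - t * yy ^ 5; linear_combination e3))
    (Subtype.ext h199)
  -- evaluation at rational points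
  have : Module.IsTorsionFree (ZMod 199)[X] KK :=
    Module.isTorsionFree_iff_algebraMap_injective.mpr
      (FunctionField.algebraMap_injective (ZMod 199) KK)
  have hn : ∀ (x₀ y₀ : ZMod 199) (n : ℕ) [n.AtLeastTwo],
      evalEval x₀ y₀ (ofNat(n) : (ZMod 199)[X][X]) = ofNat(n) :=
    fun x₀ y₀ n _ => map_ofNat (evalEvalRingHom x₀ y₀) n
  have h4 : algebraMap (ZMod 199)[X] KK X = x := rfl
  have hev : ∀ (x₀ y₀ : ZMod 199) (P : (ZMod 199)[X][X]), y₀ ^ 11 = x₀ * (8 - x₀) ^ 2 →
      aeval yy P = 0 → P.evalEval x₀ y₀ = 0 := by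
    intro x₀ y₀ P h0 hP
    obtain ⟨Q, rfl⟩ := minpoly.isIntegrallyClosed_dvd yy_int hP
    rw [evalEval_mul, minpoly_yy']
    simp only [mm, evalEval_sub, evalEval_pow, evalEval_X, evalEval_C, eval_mul, eval_pow,
      eval_sub, eval_X, eval_C, h0, sub_self, zero_mul]
  have hsq : ∀ (c : ZMod 199) (g : ringOfIntegers (ZMod 199) KK),
      ((198 + 166 * y' + 82 * y' ^ 2 + 152 * y' ^ 3 + (22 + y') * t' :
        ringOfIntegers (ZMod 199) KK) : KK) ≠ algebraMap (ZMod 199) KK c * g ^ 2 := by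
    intro c g hg
    change 198 + 166 * yy + 82 * yy ^ 2 + 152 * yy ^ 3 + (22 + yy) * t = _ at hg
    obtain ⟨H, hH⟩ := mem_adjoin yy pbK.adjoin_gen_eq_top yy_int (g : KK) g.2
    rw [minpoly_yy] at hH
    simp only [derivative_sub, derivative_X_pow, derivative_C, sub_zero, map_mul,
      map_pow, aeval_X, map_natCast] at hH
    have h1 : aeval yy ((11 * X ^ 10) ^ 2 * (X ^ 6 * (198 + 166 * X + 82 * X ^ 2 + 152 * X ^ 3)
        + (22 + X) * X * C (X * (8 - X))) - C (C c) * (X ^ 3 * H) ^ 2 : (ZMod 199)[X][X]) = 0 := by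
      have h2 : algebraMap (ZMod 199)[X] KK (C c) = algebraMap (ZMod 199) KK c := rfl
      simp only [map_sub, map_mul, map_add, map_pow, aeval_X, aeval_C, map_ofNat, hH, h2, h4]
      push_cast
      linear_combination (11 * yy ^ 10) ^ 2 * yy ^ 6 * hg
        - (11 * yy ^ 10) ^ 2 * (22 + yy) * yy * e3
    have h5 := hev 6 30 _ (by decide +kernel) h1
    have h6 := hev 6 37 _ (by decide +kernel) h1
    simp only [evalEval_sub, evalEval_mul, evalEval_add, evalEval_pow, evalEval_X, evalEval_C,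
      hn, eval_ofNat, eval_mul, eval_sub, eval_C, eval_X] at h5 h6
    rw [sub_eq_zero] at h5 h6
    have h7 : ∀ z : ZMod 199,
        ((11 * 30 ^ 10) ^ 2 * (30 ^ 6 * (198 + 166 * 30 + 82 * 30 ^ 2 + 152 * 30 ^ 3)
          + (22 + 30) * 30 * (6 * (8 - 6)))) *
        ((11 * 37 ^ 10) ^ 2 * (37 ^ 6 * (198 + 166 * 37 + 82 * 37 ^ 2 + 152 * 37 ^ 3)
          + (22 + 37) * 37 * (6 * (8 - 6)))) ≠ z ^ 2 := by
      decide +kernel
    refine h7 (c * (30 ^ 3 * H.evalEval 6 30) * (37 ^ 3 * H.evalEval 6 37)) ?_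
    rw [h5, h6]
    ring
  refine h.even_card _ u _ r s ?_ c1 c2 hsq
  intro h0
  have h1 : 72 + 88 * yy + 175 * yy ^ 2 + 32 * yy ^ 3 + 39 * t + x = 0 := congrArg Subtype.val h0
  have h2 : aeval yy (X ^ 5 * (72 + 88 * X + 175 * X ^ 2 + 32 * X ^ 3 + C X)
      + 39 * C (X * (8 - X)) : (ZMod 199)[X][X]) = 0 := by
    simp only [map_sub, map_mul, map_add, map_pow, aeval_X, aeval_C, map_ofNat, h4]
    linear_combination yy ^ 5 * h1 - 39 * e3
  have h5 := hev 6 30 _ (by decide +kernel) h2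
  simp only [evalEval_mul, evalEval_add, evalEval_pow, evalEval_X, evalEval_C,
    hn, eval_ofNat, eval_mul, eval_sub, eval_X] at h5
  revert h5
  decide +kernel

end Pool.Agent.Lib.MP_08d8ea_nt
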